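/-
Piece XNP of the project of helper433: `X` is finitely generated and not projective.
-/
import Pool.Agent.Run7.h433.Nak.Iface

set_option autoImplicit false

namespace Run7.h213.Nak

open Run7.h433.Nak

theorem sI00 : sI 0 0 = 0 := by decide
theorem sG00 : sG 0 0 = 0 := by decide
theorem sI0l : sI 0 127 = 0 := by decide
theorem sG0l : sG 0 127 = 0 := by decide
theorem sI0l' : sI 0 127 = vI 0 := by decide
theorem sG0l' : sG 0 127 = vG 0 := by decide

/-- the generator of `Vm 0` -/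
def v0 : Vm 0 := Vm.mk (fun k => if k = 0 then 1 else 0) (fun k hk => if_neg (by omega))

theorem v0_ne : v0 ≠ 0 := by
  intro h
  have h1 : v0.c 0 = (0 : Vm 0).c 0 := by rw [h]
  rw [Vm.c_zero] at h1
  have h2 : v0.c 0 = 1 := rfl
  rw [h2] at h1
  exact one_ne_zero h1

/-- the projection to degree `(0, 0)` -/
def pT : W (Vm 0) →ₗ[T] W (Vm 0) := mkT (prq (Vm 0) 0 0) (isT_prq _ _ _)

theorem pT_apply (x : W (Vm 0)) (τ : Vt) (r : I) :
    pT x τ r = if sI τ r = 0 ∧ sG τ r = 0 then x τ r else 0 := rfl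

theorem pT_mem (x : W (Vm 0)) : pT x ∈ Wg (Vm 0) 0 0 := by
  intro τ r h
  rw [pT_apply] at h
  split_ifs at h with h1
  · exact h1
  · exact absurd rfl h

theorem pT_pT (x : W (Vm 0)) : pT (pT x) = pT x := by
  funext τ r
  rw [pT_apply, pT_apply]
  split_ifs <;> rfl

theorem xi_pT (x : W (Vm 0)) : xi (pT x) = xi x := by
  refine congrArg (Submodule.mkQ _) (Subtype.ext ?_)
  show (((pT (pT x), (0 : W (Vm 0)), (0 : W (Vm 0))), (0 : W3 (Vm 1))) : Zm 0) =
    ((pT x, (0 : W (Vm 0)), (0 : W (Vm 0))), (0 : W3 (Vm 1)))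
  rw [pT_pT]

theorem xnp (hL : S_LWS) (hT : S_TST) (hK : S_XKR) (hX : S_XRL) (hV : S_VS) : S_XNP := by
  have hsurj : Function.Surjective xi := fun ξ => by
    obtain ⟨x, -, h⟩ := hX.onto ξ
    exact ⟨x, h⟩
  have hfin : Module.Finite ℚ (Vm 0) := hV.fin 0
  have hfin2 : Module.Finite ℚ (W (Vm 0)) := inferInstanceAs (Module.Finite ℚ (Vt → I → Vm 0))
  have hfin3 : Module.Finite T (W (Vm 0)) := Module.Finite.of_restrictScalars_finite ℚ T _
  refine ⟨Module.Finite.of_surjective xi hsurj, fun hP => ?_⟩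
  obtain ⟨s, hs⟩ := Module.projective_lifting_property xi LinearMap.id hsurj
  have hs' : ∀ ξ : X, xi (s ξ) = ξ := fun ξ => LinearMap.congr_fun hs ξ
  set δ : W (Vm 0) := sg 0 0 v0 with hδ
  have hδm : δ ∈ Wg (Vm 0) 0 0 := by
    have h := hT.sg_mem (Vm 0) 0 0 v0
    rw [sI00, sG00] at h
    exact h
  set u : W (Vm 0) := pT (s (xi δ)) with hu
  have hum : u ∈ Wg (Vm 0) 0 0 := pT_mem _
  have hxu : xi u = xi δ := by rw [hu, xi_pT, hs']
  have hnm : u - δ ∈ Wg (Vm 0) 0 0 := sub_mem hum hδm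
  have hn0 : xi (u - δ) = 0 := by rw [map_sub, hxu, sub_self]
  have hn := (hK (u - δ) hnm).1 hn0 0 0 (by decide) (by decide)
  obtain ⟨t, ht⟩ := hT.exE 0 0 127 sI0l' sG0l'
  have h1 : t • (u - δ) = 0 := by
    funext τ r
    rw [smul_def, act_apply]
    refine Finset.sum_eq_zero fun q _ => ?_
    rw [ht (τ, r) q]
    split_ifs with h
    · by_cases hq : q.2 = 0
      · rw [h.2, hq, hn, smul_zero]
      · rw [hL.soc _ _ hq, zero_smul]
    · exact zero_smul _ _
  have h2 : t • δ = sg 0 127 v0 := hT.smE t 0 0 127 ht (Vm 0) v0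
  have h3 : t • u = sg 0 127 v0 := by
    rw [smul_sub, sub_eq_zero] at h1
    rw [h1, h2]
  have h4 : xi (sg 0 127 v0) = 0 := by
    have hm : (sg 0 127 v0 : W (Vm 0)) ∈ Wg (Vm 0) 0 0 := by
      have h := hT.sg_mem (Vm 0) 0 127 v0
      rw [sI0l, sG0l] at h
      exact h
    refine (hK _ hm).2 fun τ r hr _ => ?_
    show (if τ = 0 ∧ r = 127 then v0 else 0) = 0
    rw [if_neg]
    rintro ⟨-, rfl⟩
    exact absurd hr (by decide)
  have h5 : t • u = 0 := by
    rw [hu, ← map_smul, ← map_smul, ← map_smul, h2, h4, map_zero, map_zero]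
  rw [h3] at h5
  have h6 := congrFun (congrFun h5 0) 127
  have h7 : (sg 0 127 v0 : W (Vm 0)) 0 127 = v0 := if_pos ⟨rfl, rfl⟩
  rw [h7] at h6
  exact v0_ne h6

end Run7.h213.Nak
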